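import Mathlib
import Pool.Agent.T6.H79.RI.Pairs
import Pool.Agent.Y733.UD.Low

/-!
# MP_4a0cc8_nt: almost all pairs of elliptic curves are independent modulo ALL primes `p ≥ 13`, over ALL
number fields of all degrees, with absolute constants

All constants below are absolute: they depend neither on the number field `K` nor on its degree `n`.
Let `q ≥ 13`.

(3) and (4) Over every number field `K`, all but at most `(C B ^ (3 + 2 / q + ε)) ^ n` of the about
`B ^ (4 n)` pairs `(j₀, j)` of elements of `K` of absolute height at most `B` have the following property.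
For ALL elliptic curves `E₀`, `E` over `K` with invariants `j₀`, `j` (that is, for all twists) and ALL
primes `p ≥ q` the image of `Gal(K̄/K)` in `Aut(E[p]) × Aut(E₀[p])` contains `SL₂(𝔽_p) × SL₂(𝔽_p)`.  In
particular `E[m]` and `E₀[m]` are not isomorphic if `m` has a prime factor `p ≥ q`.
For `q = 13` the proportion of the exceptional pairs is at most `B ^ (-n / 2)`, for
`B ≥ B0 δ_K ^ 14`, `δ_K` the root discriminant.

(2) For EVERY `j₀ ∈ K` the same holds for all but `(C B ^ (1 + 2 / q + ε) H(j₀) ^ ε) ^ n` of the about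
`B ^ (2 n)` elements `j`, with the image `SL₂(𝔽_p) × 1`.

(1) More generally let `S` be a finite set of primes of `K` and `1 / q ≤ κ ≤ 1`.  For all but
`(C B ^ (1 + 1 / q + κ + ε)) ^ n (∏ N(v)) ^ ε`, `v ∈ S`, of the `j` of height at most `B` this holds at the
same time for all `E`, all `p ≥ q` and ALL elliptic curves `E₀` over `K` whose primes outside `S` of
potentially multiplicative reduction have a product of norms at most `B ^ (κ n)`.

Proof.  The relative local theorem of `Pool.Agent.T6.H79.RI.LocR`: at a place `v ∤ 6` with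
`8 v(p) < p² - 1` at which `E₀` has potentially good reduction and `v(j) < 0`, `p ∤ v(j)`, some element of
the inertia group acts trivially on `E₀[p]` and with order `p` on `E[p]` (also if `v ∣ p`).  So either
`Gal(K̄/K)` fixes a line of `E[p]`, which makes the radical of the denominator of `j` small (comparison of
heights of isogenous curves, helper420), or the poles of `j` of order prime to `p` are poles of `j(E₀)` or
among few other primes, or the relative image contains `SL₂(𝔽_p)`, since a normal subgroup with an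
element of order `p` of a group without stable lines contains `SL₂(𝔽_p)`.  The number of the possible
denominators is estimated by the method of Rankin, with different weights at `S` and elsewhere.
-/

set_option autoImplicit false

open NumberField WeierstrassCurve IsDedekindDomain

open scoped Classical

namespace Pool.Agent.Results.MP_4a0cc8_nt.AllFieldsIndependence

section
variable {K : Type} [Field K]

/-- The curve `y² = x³ + Ax + B` over `K`. -/
def curve (A B : K) : WeierstrassCurve K := ⟨0, 0, 0, A, B⟩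

/-- The group of its points over the algebraic closure of `K`. -/
abbrev Points (A B : K) : Type := ((curve A B).baseChange (AlgebraicClosure K)).toAffine.Point

/-- The action of an automorphism `σ` of the algebraic closure on the points. -/
noncomputable def galois (A B : K) (σ : AlgebraicClosure K ≃ₐ[K] AlgebraicClosure K) :
    Points A B →+ Points A B :=
  WeierstrassCurve.Affine.Point.map (σ : AlgebraicClosure K →ₐ[K] AlgebraicClosure K)

/-- The points `P` and `Q` form a basis of the `p`-torsion. -/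
def IsBasis (A B : K) (p : ℕ) (P Q : Points A B) : Prop :=
  p • P = 0 ∧ p • Q = 0 ∧
    (∀ R : Points A B, p • R = 0 → ∃ m n : ℤ, R = m • P + n • Q) ∧
    ∀ m n : ℤ, m • P + n • Q = 0 → (p : ℤ) ∣ m ∧ (p : ℤ) ∣ n

/-- The image of the Galois group in `Aut(E[p]) × Aut(E₀[p])`, `E : y² = x³ + Ax + B`,
`E₀ : y² = x³ + A₀x + B₀`, contains `SL₂(𝔽_p) × 1`: there is a basis of `E[p]` in which every matrix of
determinant `1` modulo `p` is the matrix of some `σ` which acts trivially on `E₀[p]`. -/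
def Independent (p : ℕ) (A B A₀ B₀ : K) : Prop :=
  ∃ P Q : Points A B, IsBasis A B p P Q ∧
    ∀ a b c d : ℤ, (p : ℤ) ∣ a * d - b * c - 1 →
      ∃ σ : AlgebraicClosure K ≃ₐ[K] AlgebraicClosure K,
        (∀ R : Points A₀ B₀, p • R = 0 → galois A₀ B₀ σ R = R) ∧
        galois A B σ P = a • P + c • Q ∧ galois A B σ Q = b • P + d • Q

/-- The image of the Galois group in `Aut(E[p]) × Aut(E₀[p])` contains `SL₂(𝔽_p) × SL₂(𝔽_p)`: there are
bases of `E[p]` and of `E₀[p]` in which every pair of matrices of determinant `1` modulo `p` is the pair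
of the matrices of some `σ`. -/
def JointlyFull (p : ℕ) (A B A₀ B₀ : K) : Prop :=
  ∃ (P Q : Points A B) (P₀ Q₀ : Points A₀ B₀), IsBasis A B p P Q ∧ IsBasis A₀ B₀ p P₀ Q₀ ∧
    ∀ a b c d a' b' c' d' : ℤ, (p : ℤ) ∣ a * d - b * c - 1 → (p : ℤ) ∣ a' * d' - b' * c' - 1 →
      ∃ σ : AlgebraicClosure K ≃ₐ[K] AlgebraicClosure K,
        galois A B σ P = a • P + c • Q ∧ galois A B σ Q = b • P + d • Q ∧
        galois A₀ B₀ σ P₀ = a' • P₀ + c' • Q₀ ∧ galois A₀ B₀ σ Q₀ = b' • P₀ + d' • Q₀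

/-- The invariant of `y² = x³ + Ax + B`. -/
noncomputable def jInvariant (A B : K) : K := 6912 * A ^ 3 / (4 * A ^ 3 + 27 * B ^ 2)

end

section
variable {K : Type} [Field K] [NumberField K]

variable (K) in
/-- the root discriminant `δ_K` -/
noncomputable def rootDisc : ℝ :=
  |(NumberField.discr K : ℝ)| ^ (1 / (Module.finrank ℚ K : ℝ))

variable (K) in
/-- the elements of `K` of absolute height at most `B` -/
def Inv (B : ℝ) : Set K := {j | Height.logHeight₁ j ≤ Module.finrank ℚ K * Real.log B}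

/-- the absolute height -/
noncomputable def absHeight (j : K) : ℝ := Real.exp (Height.logHeight₁ j / Module.finrank ℚ K)

/-- The product of the norms of the primes outside `S` at which the invariant of `y² = x³ + Ax + B` is
not integral (the primes outside `S` of potentially multiplicative reduction). -/
noncomputable def multProduct (S : Finset (HeightOneSpectrum (𝓞 K))) (A B : K) : ℝ :=
  ∏ᶠ v ∈ {v : HeightOneSpectrum (𝓞 K) | v ∉ S ∧ ¬ v.valuation K (jInvariant A B) ≤ 1},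
    (Ideal.absNorm v.asIdeal : ℝ)

/-- The elements `j` of `K` of absolute height at most `B` such that for some elliptic curve `E` over `K`
with invariant `j`, some prime `p ≥ q` and some elliptic curve `E₀` over `K` with
`multProduct S E₀ ≤ B ^ (κ [K : ℚ])` the image in `Aut(E[p]) × Aut(E₀[p])` does not contain
`SL₂(𝔽_p) × 1`. -/
def Exceptional (q : ℕ) (S : Finset (HeightOneSpectrum (𝓞 K))) (κ B : ℝ) : Set K :=
  {j ∈ Inv K B | ∃ a b : K, 4 * a ^ 3 + 27 * b ^ 2 ≠ 0 ∧ jInvariant a b = j ∧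
    ∃ p : ℕ, p.Prime ∧ q ≤ p ∧ ∃ a₀ b₀ : K, 4 * a₀ ^ 3 + 27 * b₀ ^ 2 ≠ 0 ∧
      multProduct S a₀ b₀ ≤ B ^ (κ * (Module.finrank ℚ K : ℝ)) ∧ ¬ Independent p a b a₀ b₀}

/-- The elements `j` of `K` of absolute height at most `B` such that for some elliptic curves `E₀`, `E`
over `K` with invariants `j₀`, `j` and some prime `p ≥ q` the image in `Aut(E[p]) × Aut(E₀[p])` does not
contain `SL₂(𝔽_p) × 1`. -/
def Dependent (q : ℕ) (j₀ : K) (B : ℝ) : Set K :=
  {j ∈ Inv K B | ∃ a b a₀ b₀ : K, 4 * a ^ 3 + 27 * b ^ 2 ≠ 0 ∧ 4 * a₀ ^ 3 + 27 * b₀ ^ 2 ≠ 0 ∧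
    jInvariant a b = j ∧ jInvariant a₀ b₀ = j₀ ∧
      ∃ p : ℕ, p.Prime ∧ q ≤ p ∧ ¬ Independent p a b a₀ b₀}

variable (K) in
/-- The pairs `(j₀, j)` of elements of `K` of absolute height at most `B` such that for some elliptic
curves `E₀`, `E` over `K` with these invariants and some prime `p ≥ q` the image in
`Aut(E[p]) × Aut(E₀[p])` does not contain `SL₂(𝔽_p) × SL₂(𝔽_p)`. -/
def DependentPairs (q : ℕ) (B : ℝ) : Set (K × K) :=
  {t | t.1 ∈ Inv K B ∧ t.2 ∈ Inv K B ∧
    ∃ a b a₀ b₀ : K, 4 * a ^ 3 + 27 * b ^ 2 ≠ 0 ∧ 4 * a₀ ^ 3 + 27 * b₀ ^ 2 ≠ 0 ∧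
      jInvariant a b = t.2 ∧ jInvariant a₀ b₀ = t.1 ∧
      ∃ p : ℕ, p.Prime ∧ q ≤ p ∧ ¬ JointlyFull p a b a₀ b₀}

end

open Pool.Agent.Y733.UD Pool.Agent.Y733.LS Pool.Agent.Y733.FZ Pool.Agent.W223.AK
open Pool.Agent.H691R3 Pool.Agent.T6.H79.RI
open Pool.Agent.T6.H79.SL (ht_eq_log)

section Aux

variable {K : Type} [Field K] [NumberField K]

theorem n_pos : (0 : ℝ) < Module.finrank ℚ K := by
  linarith [finrank_one_le K]

theorem rootDisc_eq : rootDisc K = Real.exp (rd K) := by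
  unfold rootDisc rd
  have h : (0 : ℝ) < |(NumberField.discr K : ℝ)| := by linarith [one_le_disc K]
  rw [Real.rpow_def_of_pos h]
  congr 1
  ring

theorem ncard_le {α : Type} {S : Set α} {b : ℝ}
    (h : ∀ E : Finset α, (E : Set α) ⊆ S → (E.card : ℝ) ≤ b) : S.Finite ∧ (S.ncard : ℝ) ≤ b := by
  have hfin : S.Finite := by
    by_contra hinf
    obtain ⟨t, ht, hcard⟩ := Set.Infinite.exists_subset_card_eq hinf (⌊b⌋₊ + 1)
    have h1 := h t ht
    rw [hcard] at h1
    have h2 := Nat.lt_floor_add_one b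
    push_cast at h1
    linarith
  refine ⟨hfin, ?_⟩
  have h1 := h hfin.toFinset (by simp)
  rwa [← Set.ncard_eq_toFinset_card S hfin] at h1

theorem le_ncard {S : Set K} (hS : S.Finite) {b : ℝ} {E : Finset K} (hE : (E : Set K) ⊆ S)
    (h : b ≤ E.card) : b ≤ (S.ncard : ℝ) := by
  refine h.trans ?_
  rw [← Set.ncard_coe_finset]
  exact_mod_cast Set.ncard_le_ncard hE hS

theorem pow_form {n : ℕ} {C B Q α β : ℝ} (hC : 0 < C) (hB : 0 < B) (hQ : 0 < Q) :
    (C * B ^ α * Q ^ β) ^ n = Real.exp (n * (Real.log C + α * Real.log B + β * Real.log Q)) := by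
  rw [Real.exp_nat_mul, Real.exp_add, Real.exp_add, Real.exp_log hC, Real.rpow_def_of_pos hB,
    Real.rpow_def_of_pos hQ, mul_comm α, mul_comm β]

theorem fin_Inv (B : ℝ) : (Inv K B).Finite :=
  NumberField.finite_setOfPred_logHeight₁_le (K := K) (Module.finrank ℚ K * Real.log B)

theorem sqrt_rootDisc : √(rootDisc K) = Real.exp (rd K / 2) := by
  rw [rootDisc_eq, Real.exp_half]

theorem log_abs (j : K) : Real.log (absHeight j) = ht j / Module.finrank ℚ K := by
  unfold absHeight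
  rw [Real.log_exp, ht_eq_log]

theorem abs_pos' (j : K) : 0 < absHeight j := Real.exp_pos _

theorem pairs_le (q : ℕ) (B : ℝ) :
    ((DependentPairs K q B).ncard : ℝ) ≤ ((Inv K B).ncard : ℝ) ^ 2 := by
  have h : DependentPairs K q B ⊆ (Inv K B) ×ˢ (Inv K B) := fun x hx => ⟨hx.1, hx.2.1⟩
  have h1 := Set.ncard_le_ncard h ((fin_Inv B).prod (fin_Inv B))
  rw [Set.ncard_prod] at h1
  rw [pow_two]
  exact_mod_cast h1

/-- the relative image -/
theorem indep_of {p : ℕ} (hp : p.Prime) {a b a₀ b₀ : K} (hD : 4 * a ^ 3 + 27 * b ^ 2 ≠ 0)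
    (h : HasR a b a₀ b₀ p) : Independent p a b a₀ b₀ := by
  obtain ⟨P, Q, g1, g2, g3, g4, g5⟩ := h
  obtain ⟨h6, h7⟩ := Pool.Agent.Y673.SL.basis hD hp g1 g2 g3 g4
  exact ⟨P, Q, ⟨g1, g2, h6, h7⟩, g5⟩

/-- the joint image -/
theorem joint_of {p : ℕ} (hp : p.Prime) {a b a₀ b₀ : K} (hD : 4 * a ^ 3 + 27 * b ^ 2 ≠ 0)
    (hD₀ : 4 * a₀ ^ 3 + 27 * b₀ ^ 2 ≠ 0) (h : HasR a b a₀ b₀ p) (h₀ : HasR a₀ b₀ a b p) :
    JointlyFull p a b a₀ b₀ := by
  obtain ⟨P, Q, P₀, Q₀, g1, g2, g3, g4, g1', g2', g3', g4', g5⟩ := joint h h₀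
  obtain ⟨h6, h7⟩ := Pool.Agent.Y673.SL.basis hD hp g1 g2 g3 g4
  obtain ⟨h6', h7'⟩ := Pool.Agent.Y673.SL.basis hD₀ hp g1' g2' g3' g4'
  exact ⟨P, Q, P₀, Q₀, ⟨g1, g2, h6, h7⟩, ⟨g1', g2', h6', h7'⟩, g5⟩

theorem mult_weight {S : Finset (HeightOneSpectrum (𝓞 K))} {a b : K} {Y : ℝ} (hY : 1 ≤ Y)
    (h : multProduct S a b ≤ Y) :
    ∃ R : Finset (Pr K), (∀ v, v ∉ S → v ∉ R → (Pool.Agent.Y673.Loc.adv K v).G 0
      (Pool.Agent.Y673.Loc.jv a b)) ∧ ∑ v ∈ R, Real.log (Nv v) ≤ Real.log Y := by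
  have hfin : {v : HeightOneSpectrum (𝓞 K) | v ∉ S ∧
      ¬ v.valuation K (jInvariant a b) ≤ 1}.Finite :=
    (poles_finite (jInvariant a b)).subset fun v hv => hv.2
  refine ⟨hfin.toFinset, ?_, ?_⟩
  · intro v hvS hv
    rw [Set.Finite.mem_toFinset] at hv
    rw [G_iff]
    by_contra hc
    exact hv ⟨hvS, hc⟩
  · unfold multProduct at h
    rw [finprod_mem_eq_finite_toFinset_prod _ hfin] at h
    have hpos : ∀ v : HeightOneSpectrum (𝓞 K), (0 : ℝ) < (Ideal.absNorm v.asIdeal : ℝ) :=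
      fun v => by
        have := Pool.Agent.R420.oneN v
        linarith
    have h1 := Real.log_le_log (Finset.prod_pos fun v _ => hpos v) h
    rw [Real.log_prod fun v _ => (hpos v).ne'] at h1
    exact h1

theorem exc_exR {q : ℕ} {S : Finset (HeightOneSpectrum (𝓞 K))} {κ B : ℝ} (hκ : 0 ≤ κ) (hB : 1 ≤ B)
    {j : K} (h : j ∈ Exceptional q S κ B) :
    ExR q S (κ * (Module.finrank ℚ K * Real.log B)) j := by
  obtain ⟨-, a, b, hD, hj, p, hp, hqp, a₀, b₀, hD₀, hm, hno⟩ := h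
  have hY : (1 : ℝ) ≤ B ^ (κ * (Module.finrank ℚ K : ℝ)) := Real.one_le_rpow hB (by positivity)
  obtain ⟨R, hR, hR'⟩ := mult_weight hY hm
  refine ⟨a, b, hD, hj, p, hp, hqp, a₀, b₀, hD₀, ⟨R, hR, ?_⟩, fun hh => hno (indep_of hp hD hh)⟩
  rw [Real.log_rpow (by linarith)] at hR'
  linarith

theorem dep_depJ {q : ℕ} {j₀ : K} {B : ℝ} {j : K} (h : j ∈ Dependent q j₀ B) : DepJ q j₀ j := by
  obtain ⟨-, a, b, a₀, b₀, hD, hD₀, hj, hj₀, p, hp, hqp, hno⟩ := h
  exact ⟨a, b, a₀, b₀, hD, hD₀, hj, hj₀, p, hp, hqp, fun hh => hno (indep_of hp hD hh)⟩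

theorem pair_depJ {q : ℕ} {B : ℝ} {t : K × K} (h : t ∈ DependentPairs K q B) :
    DepJ q t.1 t.2 ∨ DepJ q t.2 t.1 := by
  obtain ⟨-, -, a, b, a₀, b₀, hD, hD₀, hj, hj₀, p, hp, hqp, hno⟩ := h
  by_cases h1 : HasR a b a₀ b₀ p
  · right
    exact ⟨a₀, b₀, a, b, hD₀, hD, hj₀, hj, p, hp, hqp, fun h2 => hno (joint_of hp hD hD₀ h1 h2)⟩
  · left
    exact ⟨a, b, a₀, b₀, hD, hD₀, hj, hj₀, p, hp, hqp, h1⟩

end Aux

/-- (1) -/
theorem part_one (q : ℕ) (κ ε : ℝ) (hq : 13 ≤ q) (hκ : 1 / (q : ℝ) ≤ κ) (hκ1 : κ ≤ 1) (hε : 0 < ε) :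
    ∃ C : ℝ, 0 < C ∧ ∀ (K : Type) [Field K] [NumberField K]
      (S : Finset (HeightOneSpectrum (𝓞 K))) (B : ℝ), 1 ≤ B →
      (Exceptional q S κ B).Finite ∧ ((Exceptional q S κ B).ncard : ℝ) ≤
        (C * B ^ (1 + 1 / (q : ℝ) + κ + ε)) ^ Module.finrank ℚ K *
          (∏ v ∈ S, (Ideal.absNorm v.asIdeal : ℝ)) ^ ε := by
  obtain ⟨A, hA, h⟩ := excR_count q hq hκ hκ1 (ε := min ε 1) (lt_min hε one_pos) (min_le_right _ _)
  refine ⟨Real.exp A, Real.exp_pos _, ?_⟩
  intro K _ _ S B hB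
  have hn := n_pos (K := K)
  have hB0 : 0 < B := by linarith
  have hlB := Real.log_nonneg hB
  have hκ0 : 0 ≤ κ := le_trans (by positivity) hκ
  have hpos : ∀ v : HeightOneSpectrum (𝓞 K), (0 : ℝ) < (Ideal.absNorm v.asIdeal : ℝ) :=
    fun v => by
      have := Pool.Agent.R420.oneN v
      linarith
  have hlog : Real.log (∏ v ∈ S, (Ideal.absNorm v.asIdeal : ℝ)) = ∑ v ∈ S, Real.log (Nv v) := by
    rw [Real.log_prod fun v _ => (hpos v).ne']
    rfl
  have hw0 : 0 ≤ ∑ v ∈ S, Real.log (Nv v) := Finset.sum_nonneg fun v _ => (log_Nv_pos v).le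
  refine ncard_le fun E hE => ?_
  refine (h K S (Module.finrank ℚ K * Real.log B) E (mul_nonneg n_pos.le hlB) ?_).trans ?_
  · intro j hj
    have h1 := hE (Finset.mem_coe.2 hj)
    refine ⟨?_, exc_exR hκ0 hB h1⟩
    rw [← ht_eq_log]
    exact h1.1
  · rw [Real.rpow_def_of_pos hB0, Real.rpow_def_of_pos (Finset.prod_pos fun v _ => hpos v), hlog,
      ← Real.exp_add, ← Real.exp_nat_mul, ← Real.exp_add]
    apply Real.exp_le_exp.2
    have h1 : min ε 1 ≤ ε := min_le_left _ _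
    have h2 : min ε 1 * (Module.finrank ℚ K * Real.log B) ≤
        ε * (Module.finrank ℚ K * Real.log B) :=
      mul_le_mul_of_nonneg_right h1 (by positivity)
    have h3 : min ε 1 * ∑ v ∈ S, Real.log (Nv v) ≤ ε * ∑ v ∈ S, Real.log (Nv v) :=
      mul_le_mul_of_nonneg_right h1 hw0
    nlinarith

/-- (2) -/
theorem part_two (q : ℕ) (ε : ℝ) (hq : 13 ≤ q) (hε : 0 < ε) : ∃ C : ℝ, 0 < C ∧
    ∀ (K : Type) [Field K] [NumberField K] (j₀ : K) (B : ℝ), 1 ≤ B →
      ((Dependent q j₀ B).ncard : ℝ) ≤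
        (C * B ^ (1 + 2 / (q : ℝ) + ε) * absHeight j₀ ^ ε) ^ Module.finrank ℚ K := by
  obtain ⟨A, hA, h⟩ := dep_count q hq (ε := min ε 1) (lt_min hε one_pos) (min_le_right _ _)
  refine ⟨Real.exp A, Real.exp_pos _, ?_⟩
  intro K _ _ j₀ B hB
  have hn := n_pos (K := K)
  have hB0 : 0 < B := by linarith
  have hlB := Real.log_nonneg hB
  rw [pow_form (Real.exp_pos _) hB0 (abs_pos' j₀), Real.log_exp]
  refine (ncard_le fun E hE => ?_).2
  refine (h K j₀ (Module.finrank ℚ K * Real.log B) E (mul_nonneg n_pos.le hlB) ?_).trans ?_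
  · intro j hj
    have h1 := hE (Finset.mem_coe.2 hj)
    refine ⟨?_, dep_depJ h1⟩
    rw [← ht_eq_log]
    exact h1.1
  · apply Real.exp_le_exp.2
    rw [log_abs]
    have h1 : min ε 1 ≤ ε := min_le_left _ _
    have h2 : min ε 1 * (Module.finrank ℚ K * Real.log B) ≤
        ε * (Module.finrank ℚ K * Real.log B) :=
      mul_le_mul_of_nonneg_right h1 (by positivity)
    have h3 : min ε 1 * ht j₀ ≤ ε * ht j₀ := mul_le_mul_of_nonneg_right h1 (ht_nonneg j₀)
    have h4 : (Module.finrank ℚ K : ℝ) * (ε * (ht j₀ / Module.finrank ℚ K)) = ε * ht j₀ := by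
      field_simp
    nlinarith

/-- logarithmic form of the count of pairs -/
theorem pairs_log {q : ℕ} (hq : 13 ≤ q) {ε : ℝ} (hε : 0 < ε) : ∃ A : ℝ, 0 ≤ A ∧
    ∀ (K : Type) [Field K] [NumberField K] (B : ℝ), 1 ≤ B →
      ((DependentPairs K q B).ncard : ℝ) ≤ Real.exp (Module.finrank ℚ K *
        (A + (3 + 2 / q + ε) * Real.log B)) := by
  obtain ⟨A, hA, h⟩ := dep_pairs q hq (ε := min ε 1) (lt_min hε one_pos) (min_le_right _ _)
  refine ⟨A, hA, ?_⟩
  intro K _ _ B hB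
  have hn := n_pos (K := K)
  have hlB := Real.log_nonneg hB
  refine (ncard_le fun E hE => ?_).2
  refine (h K (Module.finrank ℚ K * Real.log B) E (mul_nonneg n_pos.le hlB) ?_).trans ?_
  · intro t ht'
    have h1 := hE (Finset.mem_coe.2 ht')
    refine ⟨?_, ?_, pair_depJ h1⟩
    · rw [← ht_eq_log]
      exact h1.1
    · rw [← ht_eq_log]
      exact h1.2.1
  · apply Real.exp_le_exp.2
    have h1 : min ε 1 ≤ ε := min_le_left _ _
    have h2 : min ε 1 * (Module.finrank ℚ K * Real.log B) ≤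
        ε * (Module.finrank ℚ K * Real.log B) :=
      mul_le_mul_of_nonneg_right h1 (by positivity)
    nlinarith

/-- logarithmic form of the lower bound for the number of all elements (following
`AllFieldsCongruences.inv_log`) -/
theorem inv_log {ε : ℝ} (hε : 0 < ε) : ∃ A : ℝ, 0 ≤ A ∧
    ∀ (K : Type) [Field K] [NumberField K] (B : ℝ), 16 * √(rootDisc K) ≤ B →
      Real.exp (Module.finrank ℚ K * ((2 - ε) * Real.log B - (2 + ε) * rd K - A)) ≤
        ((Inv K B).ncard : ℝ) := by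
  classical
  set ε1 : ℝ := min (ε / 4) 1 with hε1
  have h1 : 0 < ε1 := lt_min (by positivity) one_pos
  have h2 : ε1 ≤ 1 := min_le_right _ _
  have h3 : 4 * ε1 ≤ ε := by
    have := min_le_left (ε / 4) 1
    rw [← hε1] at this
    linarith
  obtain ⟨A, hA, h⟩ := low_count h1 h2
  refine ⟨A, hA, ?_⟩
  intro K _ _ B hBK
  have hn := n_pos (K := K)
  have hrd := rd_nonneg K
  have hl16 : 0 ≤ Real.log 16 := Real.log_nonneg (by norm_num)
  have hl : Real.log 16 + rd K / 2 ≤ Real.log B := by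
    rw [sqrt_rootDisc] at hBK
    have h1 := Real.log_le_log (by positivity) hBK
    rwa [Real.log_mul (by norm_num) (Real.exp_pos _).ne', Real.log_exp] at h1
  have hl8 : Real.log 8 ≤ Real.log 16 := Real.log_le_log (by norm_num) (by norm_num)
  obtain ⟨E, hE, hcard⟩ := h K (Real.log B) (by linarith)
  have hsub : (E : Set K) ⊆ Inv K B := by
    intro j hj
    obtain ⟨h4, h5⟩ := hE j (Finset.mem_coe.1 hj)
    show Height.logHeight₁ j ≤ _
    rw [ht_eq_log]
    exact h5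
  have hc := le_ncard (fin_Inv B) hsub hcard
  refine le_trans ?_ hc
  apply Real.exp_le_exp.2
  have h7 : (2 - ε) * Real.log B ≤ (2 - 4 * ε1) * Real.log B :=
    mul_le_mul_of_nonneg_right (by linarith) (by linarith)
  have h8 : (2 + ε1) * rd K ≤ (2 + ε) * rd K := mul_le_mul_of_nonneg_right (by linarith) hrd
  apply mul_le_mul_of_nonneg_left _ hn.le
  linarith

/-- (3) -/
theorem part_three (q : ℕ) (ε : ℝ) (hq : 13 ≤ q) (hε : 0 < ε) : ∃ C : ℝ, 0 < C ∧
    ∀ (K : Type) [Field K] [NumberField K] (B : ℝ), 1 ≤ B → (Inv K B).Finite ∧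
      ((DependentPairs K q B).ncard : ℝ) ≤
        (C * B ^ (3 + 2 / (q : ℝ) + ε)) ^ Module.finrank ℚ K := by
  obtain ⟨A, hA, h⟩ := pairs_log hq hε
  refine ⟨Real.exp A, Real.exp_pos _, ?_⟩
  intro K _ _ B hB
  have hB0 : 0 < B := by linarith
  refine ⟨fin_Inv B, (h K B hB).trans (le_of_eq ?_)⟩
  rw [Real.rpow_def_of_pos hB0, ← Real.exp_add, ← Real.exp_nat_mul]
  congr 2
  ring

/-- (4) -/
theorem part_four : ∃ B0 : ℝ, 0 < B0 ∧
    ∀ (K : Type) [Field K] [NumberField K] (B : ℝ), B0 * rootDisc K ^ 14 ≤ B →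
      ((DependentPairs K 13 B).ncard : ℝ) ≤
        (B ^ (-(1 / 2) : ℝ)) ^ Module.finrank ℚ K * ((Inv K B).ncard : ℝ) ^ 2 := by
  obtain ⟨A1, hA1, h1⟩ := pairs_log (q := 13) (ε := 1 / 200) le_rfl (by norm_num)
  obtain ⟨A2, hA2, h2⟩ := inv_log (ε := 1 / 400) (by norm_num)
  have hl16 : 0 ≤ Real.log 16 := Real.log_nonneg (by norm_num)
  refine ⟨Real.exp (4 * (A1 + 2 * A2 + Real.log 16)), Real.exp_pos _, ?_⟩
  intro K _ _ B hB
  have hn := n_pos (K := K)
  have hrd := rd_nonneg K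
  have e14 : rootDisc K ^ 14 = Real.exp (14 * rd K) := by
    rw [rootDisc_eq, ← Real.exp_nat_mul]
    norm_num
  rw [e14, ← Real.exp_add] at hB
  have hB0 : 0 < B := lt_of_lt_of_le (Real.exp_pos _) hB
  have hlB : 4 * (A1 + 2 * A2 + Real.log 16) + 14 * rd K ≤ Real.log B := by
    rwa [Real.le_log_iff_exp_le hB0]
  have hB1 : 1 ≤ B := le_trans (Real.one_le_exp (by positivity)) hB
  have hBK : 16 * √(rootDisc K) ≤ B := by
    rw [sqrt_rootDisc]
    rw [← Real.exp_log hB0, ← Real.exp_log (by norm_num : (0 : ℝ) < 16), ← Real.exp_add]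
    apply Real.exp_le_exp.2
    linarith
  have h3 := pow_le_pow_left₀ (Real.exp_pos _).le (h2 K B hBK) 2
  rw [← Real.exp_nat_mul] at h3
  refine (h1 K B hB1).trans ?_
  refine le_trans ?_ (mul_le_mul_of_nonneg_left h3 (by positivity))
  rw [Real.rpow_def_of_pos hB0, ← Real.exp_nat_mul, ← Real.exp_add]
  apply Real.exp_le_exp.2
  push_cast
  have h4 : (Module.finrank ℚ K : ℝ) * (A1 + (3 + 2 / 13 + 1 / 200) * Real.log B) ≤
      Module.finrank ℚ K * (Real.log B * (-(1 / 2)) +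
        2 * ((2 - 1 / 400) * Real.log B - (2 + 1 / 400) * rd K - A2)) := by
    apply mul_le_mul_of_nonneg_left _ hn.le
    nlinarith
  linarith

/-- **Main theorem.** All constants are absolute: they do not depend on `K` or on its degree `n`.
Let `q ≥ 13`, `ε > 0`.
(1) For `1 / q ≤ κ ≤ 1` there is a `C` such that for all number fields `K`, finite sets `S` of primes of
`K` and `B ≥ 1` at most `(C B ^ (1 + 1 / q + κ + ε)) ^ n ∏ N(v) ^ ε`, `v ∈ S`, elements `j` of `K` of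
height at most `B` are exceptional: for all others, for ALL `E` with invariant `j`, all primes `p ≥ q`
and ALL `E₀` over `K` with `multProduct S E₀ ≤ B ^ (κ n)` the image in `Aut(E[p]) × Aut(E₀[p])` contains
`SL₂(𝔽_p) × 1`.
(2) For all `K`, `j₀ ∈ K`, `B ≥ 1` at most `(C B ^ (1 + 2 / q + ε) H(j₀) ^ ε) ^ n` elements `j` of height
at most `B` are dependent on `j₀`.
(3) At most `(C B ^ (3 + 2 / q + ε)) ^ n` pairs of elements of height at most `B` are dependent: for all
others the image in `Aut(E[p]) × Aut(E₀[p])` contains `SL₂(𝔽_p) × SL₂(𝔽_p)` for all `p ≥ q` and all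
curves `E₀`, `E` over `K` with these invariants.
(4) For `q = 13` the proportion of the dependent pairs is at most `B ^ (-n / 2)`, over every number field
and for all `B ≥ B0 δ_K ^ 14`. -/
theorem result :
    (∀ (q : ℕ) (κ ε : ℝ), 13 ≤ q → 1 / (q : ℝ) ≤ κ → κ ≤ 1 → 0 < ε → ∃ C : ℝ, 0 < C ∧
      ∀ (K : Type) [Field K] [NumberField K] (S : Finset (HeightOneSpectrum (𝓞 K))) (B : ℝ), 1 ≤ B →
        (Exceptional q S κ B).Finite ∧ ((Exceptional q S κ B).ncard : ℝ) ≤
          (C * B ^ (1 + 1 / (q : ℝ) + κ + ε)) ^ Module.finrank ℚ K *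
            (∏ v ∈ S, (Ideal.absNorm v.asIdeal : ℝ)) ^ ε) ∧
    (∀ (q : ℕ) (ε : ℝ), 13 ≤ q → 0 < ε → ∃ C : ℝ, 0 < C ∧
      ∀ (K : Type) [Field K] [NumberField K] (j₀ : K) (B : ℝ), 1 ≤ B →
        ((Dependent q j₀ B).ncard : ℝ) ≤
          (C * B ^ (1 + 2 / (q : ℝ) + ε) * absHeight j₀ ^ ε) ^ Module.finrank ℚ K) ∧
    (∀ (q : ℕ) (ε : ℝ), 13 ≤ q → 0 < ε → ∃ C : ℝ, 0 < C ∧
      ∀ (K : Type) [Field K] [NumberField K] (B : ℝ), 1 ≤ B → (Inv K B).Finite ∧
        ((DependentPairs K q B).ncard : ℝ) ≤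
          (C * B ^ (3 + 2 / (q : ℝ) + ε)) ^ Module.finrank ℚ K) ∧
    (∃ B0 : ℝ, 0 < B0 ∧
      ∀ (K : Type) [Field K] [NumberField K] (B : ℝ), B0 * rootDisc K ^ 14 ≤ B →
        ((DependentPairs K 13 B).ncard : ℝ) ≤
          (B ^ (-(1 / 2) : ℝ)) ^ Module.finrank ℚ K * ((Inv K B).ncard : ℝ) ^ 2) :=
  ⟨part_one, part_two, part_three, part_four⟩

end Pool.Agent.Results.MP_4a0cc8_nt.AllFieldsIndependence
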