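import Mathlib
import Pool.Agent.T6.H79.RI.Szp
import Pool.Agent.T6.H79.RI.Pairs

/-!
# MP_4a0cc8_nt: curves of bounded ratio (in the sense of Szpiro) are independent of all curves with which
they share few primes of potentially multiplicative reduction, modulo ALL primes `p > max(12, 2σ)`,
over all number fields, with absolute constants

For an elliptic curve `E` over a number field `K` of degree `n` let `M(E)` be the product of the norms of
the primes of potentially multiplicative reduction (at which `j(E)` is not integral), and `M(E, E₀)` the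
product over the primes which are of potentially multiplicative reduction for both `E` and `E₀`.  Say that
`E` has ratio at most `σ` if `h(j(E)) ≤ σ log M(E)`, `h` the height relative to `K`.  (For semistable
curves the abc conjecture gives `h(j(E)) ≤ (6 + ε) log M(E) + O(1)`, so up to finitely many `j` they should
have ratio at most `σ` for each `σ > 6`; almost all curves have a ratio close to `1`.)

For every `σ > 0` there is an absolute constant `C` with the following properties, for ALL number fields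
`K`.
(1) Let `E` have ratio at most `σ` and let `E₀` be ANY elliptic curve over `K` with
`2 σ log M(E, E₀) + C n < h(j(E))`.  Then for ALL primes `p ≥ 13`, `p > 2 σ`, the image of `Gal(K̄/K)` in
`Aut(E[p]) × Aut(E₀[p])` contains `SL₂(𝔽_p) × 1`; so `E[m]` and `E₀[m]` are not isomorphic for all `m`
with a prime factor `p ≥ 13`, `p > 2 σ`.
(2) If both curves have ratio at most `σ` and both heights are larger than `2 σ log M(E, E₀) + C n`, the
image contains `SL₂(𝔽_p) × SL₂(𝔽_p)`.
(3) For each `K`, `Y` and `θ < 1 / (2 σ)` there are only FINITELY many `j ∈ K` which are the invariant of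
a curve `E` of ratio at most `σ` such that for some `E₀` over `K` with
`log M(E, E₀) ≤ θ h(j) + Y` (for instance with `M(E₀) ≤ exp Y`) and some prime `p ≥ 13`, `p > 2 σ`, the
image does not contain `SL₂(𝔽_p) × 1`.

So for all curves `E` of ratio at most `σ`, up to finitely many invariants, the statement of Q1 holds for
all `n` with a prime factor `> max(12, 2 σ)`: this bound depends neither on `E₀` nor on `K`, and one
finite set of invariants does for all `E₀` with bounded `M(E₀)`.

Proof.  Suppose that the image does not contain `SL₂(𝔽_p) × 1`.  The poles of `j(E)` of order divisible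
by `p` contribute at most `h / p` to `log M(E)`.  By the relative local theorem
(`Pool.Agent.T6.H79.RI.LocR`) the other poles which are not poles of `j(E₀)` have weight at most `C n`,
unless `Gal(K̄/K)` fixes a line in `E[p]`; in this case their weight is at most `(h + C n) / N`, `N > 2 σ`
(comparison of the heights of isogenous curves, `Pool.Agent.R420.red_bound2`, helper420).
-/

set_option autoImplicit false

open NumberField WeierstrassCurve IsDedekindDomain

open scoped Classical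

namespace Pool.Agent.Results.MP_4a0cc8_nt.BoundedRatio

section
variable {K : Type} [Field K]

/-- The curve `y² = x³ + Ax + B` over `K`. -/
def curve (A B : K) : WeierstrassCurve K := ⟨0, 0, 0, A, B⟩

/-- The group of its points over the algebraic closure of `K`. -/
abbrev Points (A B : K) : Type := ((curve A B).baseChange (AlgebraicClosure K)).toAffine.Point

/-- The action of an automorphism `σ` of the algebraic closure on the points. -/
noncomputable def galois (A B : K) (σ : AlgebraicClosure K ≃ₐ[K] AlgebraicClosure K) :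
    Points A B →+ Points A B :=
  WeierstrassCurve.Affine.Point.map (σ : AlgebraicClosure K →ₐ[K] AlgebraicClosure K)

/-- The points `P` and `Q` form a basis of the `p`-torsion. -/
def IsBasis (A B : K) (p : ℕ) (P Q : Points A B) : Prop :=
  p • P = 0 ∧ p • Q = 0 ∧
    (∀ R : Points A B, p • R = 0 → ∃ m n : ℤ, R = m • P + n • Q) ∧
    ∀ m n : ℤ, m • P + n • Q = 0 → (p : ℤ) ∣ m ∧ (p : ℤ) ∣ n

/-- The image of the Galois group in `Aut(E[p]) × Aut(E₀[p])`, `E : y² = x³ + Ax + B`,
`E₀ : y² = x³ + A₀x + B₀`, contains `SL₂(𝔽_p) × 1`: there is a basis of `E[p]` in which every matrix of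
determinant `1` modulo `p` is the matrix of some `σ` which acts trivially on `E₀[p]`. -/
def Independent (p : ℕ) (A B A₀ B₀ : K) : Prop :=
  ∃ P Q : Points A B, IsBasis A B p P Q ∧
    ∀ a b c d : ℤ, (p : ℤ) ∣ a * d - b * c - 1 →
      ∃ σ : AlgebraicClosure K ≃ₐ[K] AlgebraicClosure K,
        (∀ R : Points A₀ B₀, p • R = 0 → galois A₀ B₀ σ R = R) ∧
        galois A B σ P = a • P + c • Q ∧ galois A B σ Q = b • P + d • Q

/-- The image of the Galois group in `Aut(E[p]) × Aut(E₀[p])` contains `SL₂(𝔽_p) × SL₂(𝔽_p)`: there are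
bases of `E[p]` and of `E₀[p]` in which every pair of matrices of determinant `1` modulo `p` is the pair
of the matrices of some `σ`. -/
def JointlyFull (p : ℕ) (A B A₀ B₀ : K) : Prop :=
  ∃ (P Q : Points A B) (P₀ Q₀ : Points A₀ B₀), IsBasis A B p P Q ∧ IsBasis A₀ B₀ p P₀ Q₀ ∧
    ∀ a b c d a' b' c' d' : ℤ, (p : ℤ) ∣ a * d - b * c - 1 → (p : ℤ) ∣ a' * d' - b' * c' - 1 →
      ∃ σ : AlgebraicClosure K ≃ₐ[K] AlgebraicClosure K,
        galois A B σ P = a • P + c • Q ∧ galois A B σ Q = b • P + d • Q ∧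
        galois A₀ B₀ σ P₀ = a' • P₀ + c' • Q₀ ∧ galois A₀ B₀ σ Q₀ = b' • P₀ + d' • Q₀

/-- The `m`-torsion of `y² = x³ + Ax + B` and that of `y² = x³ + A₀x + B₀` are isomorphic as Galois
modules: some map between the groups of points restricts to a bijective additive map of the
`m`-torsion which commutes with the Galois group. -/
def Congruent (m : ℕ) (A B A₀ B₀ : K) : Prop :=
  ∃ f : Points A B → Points A₀ B₀, (∀ P Q, m • P = 0 → m • Q = 0 → f (P + Q) = f P + f Q) ∧
    Set.BijOn f {P | m • P = 0} {Q | m • Q = 0} ∧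
    ∀ (σ : AlgebraicClosure K ≃ₐ[K] AlgebraicClosure K) (P : Points A B), m • P = 0 →
      f (galois A B σ P) = galois A₀ B₀ σ (f P)

/-- The invariant of `y² = x³ + Ax + B`. -/
noncomputable def jInvariant (A B : K) : K := 6912 * A ^ 3 / (4 * A ^ 3 + 27 * B ^ 2)

variable [NumberField K]

/-- `M(E)`: the product of the norms of the primes at which the invariant of `E : y² = x³ + Ax + B` is
not integral (the primes of potentially multiplicative reduction). -/
noncomputable def multProduct (A B : K) : ℝ :=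
  ∏ᶠ v ∈ {v : HeightOneSpectrum (𝓞 K) | ¬ v.valuation K (jInvariant A B) ≤ 1},
    (Ideal.absNorm v.asIdeal : ℝ)

/-- `M(E, E₀)`: the product of the norms of the primes at which both invariants are not integral (the
common primes of potentially multiplicative reduction). -/
noncomputable def commonProduct (A B A₀ B₀ : K) : ℝ :=
  ∏ᶠ v ∈ {v : HeightOneSpectrum (𝓞 K) | ¬ v.valuation K (jInvariant A B) ≤ 1 ∧
    ¬ v.valuation K (jInvariant A₀ B₀) ≤ 1}, (Ideal.absNorm v.asIdeal : ℝ)

/-- The curve `y² = x³ + Ax + B` has ratio at most `σ`: `h(j(E)) ≤ σ log M(E)`. -/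
def RatioLe (σ : ℝ) (A B : K) : Prop :=
  Height.logHeight₁ (jInvariant A B) ≤ σ * Real.log (multProduct A B)

end

open Pool.Agent.T6.H79.RI

section Aux

variable {K : Type} [Field K] [NumberField K]

theorem norm_pos' (v : HeightOneSpectrum (𝓞 K)) : (0 : ℝ) < (Ideal.absNorm v.asIdeal : ℝ) := by
  have := Pool.Agent.R420.oneN v
  linarith

theorem log_finprod {s : Set (HeightOneSpectrum (𝓞 K))} (hs : s.Finite) :
    Real.log (∏ᶠ v ∈ s, (Ideal.absNorm v.asIdeal : ℝ)) =
      ∑ v ∈ hs.toFinset, Real.log (Ideal.absNorm v.asIdeal : ℝ) := by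
  rw [finprod_mem_eq_finite_toFinset_prod _ hs, Real.log_prod fun v _ => (norm_pos' v).ne']

/-- the relative image -/
theorem indep_of {p : ℕ} (hp : p.Prime) {a b a₀ b₀ : K} (hD : 4 * a ^ 3 + 27 * b ^ 2 ≠ 0)
    (h : HasR a b a₀ b₀ p) : Independent p a b a₀ b₀ := by
  obtain ⟨P, Q, g1, g2, g3, g4, g5⟩ := h
  obtain ⟨h6, h7⟩ := Pool.Agent.Y673.SL.basis hD hp g1 g2 g3 g4
  exact ⟨P, Q, ⟨g1, g2, h6, h7⟩, g5⟩

theorem common_le_mult (a b a₀ b₀ : K) :
    Real.log (commonProduct a b a₀ b₀) ≤ Real.log (multProduct a₀ b₀) := by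
  unfold commonProduct multProduct
  have h1 := poles_finite (jInvariant a₀ b₀)
  have h2 : {v : HeightOneSpectrum (𝓞 K) | ¬ v.valuation K (jInvariant a b) ≤ 1 ∧
    ¬ v.valuation K (jInvariant a₀ b₀) ≤ 1}.Finite := h1.subset fun v hv => hv.2
  rw [log_finprod h1, log_finprod h2]
  refine Finset.sum_le_sum_of_subset_of_nonneg ?_ fun v _ _ => ?_
  · intro v hv
    rw [Set.Finite.mem_toFinset] at hv ⊢
    exact hv.2
  · exact (Real.log_pos (Pool.Agent.R420.oneN v)).le

theorem no_cong {p m : ℕ} (hp : p.Prime) (hpm : p ∣ m) {a b a₀ b₀ : K}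
    (h : Independent p a b a₀ b₀) : ¬ Congruent m a b a₀ b₀ := by
  rintro ⟨f, f1, f2, f3⟩
  obtain ⟨P, Q, ⟨hP, hQ, -, hind⟩, hall⟩ := h
  obtain ⟨σ, hσ, -, hσQ⟩ := hall 1 1 0 1 (by norm_num)
  have h1 := cong_triv hpm f1 f2 (ρ := galois a b σ) (ρ' := galois a₀ b₀ σ) (f3 σ) hσ hQ
  rw [hσQ, one_smul, one_smul, add_eq_right] at h1
  have h2 := (hind 1 0 (by rw [h1]; simp)).1
  have h3 : (p : ℤ) ≤ 1 := Int.le_of_dvd one_pos h2
  have := hp.two_le
  omega

end Aux

/-- the relative statement -/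
theorem rel (σ : ℝ) (hσ : 0 < σ) : ∃ C : ℝ, 0 ≤ C ∧ ∀ (K : Type) [Field K] [NumberField K]
    (A B A₀ B₀ : K), 4 * A ^ 3 + 27 * B ^ 2 ≠ 0 → 4 * A₀ ^ 3 + 27 * B₀ ^ 2 ≠ 0 → RatioLe σ A B →
    2 * σ * Real.log (commonProduct A B A₀ B₀) + C * Module.finrank ℚ K <
      Height.logHeight₁ (jInvariant A B) →
    ∀ p : ℕ, p.Prime → 13 ≤ p → 2 * σ < p → Independent p A B A₀ B₀ := by
  obtain ⟨C, hC, h⟩ := szpR σ hσ
  refine ⟨C, hC, ?_⟩
  intro K _ _ A B A₀ B₀ hD hD₀ hr hh p hp h13 hpσ
  have h1 := poles_finite (jInvariant A B)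
  have h2 : {v : HeightOneSpectrum (𝓞 K) | ¬ v.valuation K (jInvariant A B) ≤ 1 ∧
    ¬ v.valuation K (jInvariant A₀ B₀) ≤ 1}.Finite := h1.subset fun v hv => hv.1
  unfold RatioLe multProduct at hr
  unfold commonProduct at hh
  rw [log_finprod h1] at hr
  rw [log_finprod h2] at hh
  refine indep_of hp hD (h K A B A₀ B₀ hD hD₀ h1.toFinset h2.toFinset ?_ ?_ hr hh p hp h13 hpσ)
  · intro v hv
    rw [Set.Finite.mem_toFinset] at hv
    have hv' : ¬ v.valuation K (jInvariant A B) ≤ 1 := hv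
    rw [← G_iff] at hv'
    by_contra hc
    exact hv' (Or.inr (not_lt.1 hc))
  · intro v hv hvR
    rw [Set.Finite.mem_toFinset] at hv hvR
    have hv' : ¬ v.valuation K (jInvariant A B) ≤ 1 := hv
    by_contra hc
    exact hvR ⟨hv', fun hc' => hc ((G_iff v _).2 hc')⟩

/-- (2) from (1) -/
theorem joint_of {K : Type} [Field K] [NumberField K] {p : ℕ} {a b a₀ b₀ : K}
    (h6 : Independent p a b a₀ b₀) (h7 : Independent p a₀ b₀ a b) : JointlyFull p a b a₀ b₀ := by
  obtain ⟨P, Q, hb, hall⟩ := h6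
  obtain ⟨P₀, Q₀, hb₀, hall₀⟩ := h7
  refine ⟨P, Q, P₀, Q₀, hb, hb₀, ?_⟩
  intro x y z w x' y' z' w' hd hd'
  obtain ⟨σ, s0, s1, s2⟩ := hall x y z w hd
  obtain ⟨τ, t0, t1, t2⟩ := hall₀ x' y' z' w' hd'
  have hmul : ∀ (A B : K) (P : Points A B), galois A B (σ * τ) P =
      galois A B σ (galois A B τ P) := fun A B P => act_mul A B σ τ P
  refine ⟨σ * τ, ?_, ?_, ?_, ?_⟩
  · rw [hmul, t0 P hb.1, s1]
  · rw [hmul, t0 Q hb.2.1, s2]
  · rw [hmul, t1, map_add, map_zsmul, map_zsmul, s0 P₀ hb₀.1, s0 Q₀ hb₀.2.1]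
  · rw [hmul, t2, map_add, map_zsmul, map_zsmul, s0 P₀ hb₀.1, s0 Q₀ hb₀.2.1]

/-- the common product is symmetric -/
theorem common_symm {K : Type} [Field K] [NumberField K] (a b a₀ b₀ : K) :
    commonProduct a₀ b₀ a b = commonProduct a b a₀ b₀ := by
  unfold commonProduct
  have e : {v : HeightOneSpectrum (𝓞 K) | ¬ v.valuation K (jInvariant a₀ b₀) ≤ 1 ∧
      ¬ v.valuation K (jInvariant a b) ≤ 1} = {v : HeightOneSpectrum (𝓞 K) |
      ¬ v.valuation K (jInvariant a b) ≤ 1 ∧ ¬ v.valuation K (jInvariant a₀ b₀) ≤ 1} := by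
    ext v
    exact And.comm
  rw [e]

/-- **Main theorem.** For every `σ > 0` there is an absolute constant `C` such that for all number fields
`K` the following holds.
(1) If `E : y² = x³ + Ax + B` has ratio at most `σ` and `2 σ log M(E, E₀) + C [K : ℚ] < h(j(E))`, then for
all primes `p ≥ 13`, `p > 2 σ`, the image in `Aut(E[p]) × Aut(E₀[p])` contains `SL₂(𝔽_p) × 1`, and
`E[m]`, `E₀[m]` are not isomorphic if `p ∣ m`.
(2) If both `E` and `E₀` have ratio at most `σ` and both `h(j(E))` and `h(j(E₀))` are larger than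
`2 σ log M(E, E₀) + C [K : ℚ]`, the image contains `SL₂(𝔽_p) × SL₂(𝔽_p)`.
(3) For all `K`, `Y` and `θ < 1 / (2 σ)` the set of the `j ∈ K` such that for some `E` with invariant `j`
and ratio at most `σ`, some `E₀` over `K` with `log M(E, E₀) ≤ θ h(j) + Y` and some prime `p ≥ 13`,
`p > 2 σ`, the image does not contain `SL₂(𝔽_p) × 1`, is finite.
(4) `M(E, E₀) ≤ M(E₀)`. -/
theorem result (σ : ℝ) (hσ : 0 < σ) :
    (∃ C : ℝ, 0 ≤ C ∧ ∀ (K : Type) [Field K] [NumberField K] (A B A₀ B₀ : K),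
      4 * A ^ 3 + 27 * B ^ 2 ≠ 0 → 4 * A₀ ^ 3 + 27 * B₀ ^ 2 ≠ 0 → RatioLe σ A B →
      2 * σ * Real.log (commonProduct A B A₀ B₀) + C * Module.finrank ℚ K <
        Height.logHeight₁ (jInvariant A B) →
      ∀ p : ℕ, p.Prime → 13 ≤ p → 2 * σ < p →
        Independent p A B A₀ B₀ ∧ (∀ m : ℕ, p ∣ m → ¬ Congruent m A B A₀ B₀) ∧
        (RatioLe σ A₀ B₀ → 2 * σ * Real.log (commonProduct A B A₀ B₀) +
          C * Module.finrank ℚ K < Height.logHeight₁ (jInvariant A₀ B₀) →
          JointlyFull p A B A₀ B₀)) ∧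
    (∀ (K : Type) [Field K] [NumberField K] (θ Y : ℝ), θ < 1 / (2 * σ) →
      {j : K | ∃ A B : K, 4 * A ^ 3 + 27 * B ^ 2 ≠ 0 ∧ jInvariant A B = j ∧ RatioLe σ A B ∧
        ∃ A₀ B₀ : K, 4 * A₀ ^ 3 + 27 * B₀ ^ 2 ≠ 0 ∧
          Real.log (commonProduct A B A₀ B₀) ≤ θ * Height.logHeight₁ j + Y ∧
          ∃ p : ℕ, p.Prime ∧ 13 ≤ p ∧ 2 * σ < p ∧ ¬ Independent p A B A₀ B₀}.Finite) ∧
    (∀ (K : Type) [Field K] [NumberField K] (A B A₀ B₀ : K),
      Real.log (commonProduct A B A₀ B₀) ≤ Real.log (multProduct A₀ B₀)) := by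
  obtain ⟨C, hC, h⟩ := rel σ hσ
  refine ⟨⟨C, hC, ?_⟩, ?_, fun K _ _ A B A₀ B₀ => common_le_mult A B A₀ B₀⟩
  · intro K _ _ A B A₀ B₀ hD hD₀ hr hh p hp h13 hpσ
    have h1 := h K A B A₀ B₀ hD hD₀ hr hh p hp h13 hpσ
    refine ⟨h1, fun m hm => no_cong hp hm h1, fun hr₀ hh₀ => ?_⟩
    refine joint_of h1 (h K A₀ B₀ A B hD₀ hD hr₀ ?_ p hp h13 hpσ)
    rw [common_symm]
    exact hh₀
  · intro K _ _ θ Y hθ
    have hd : 0 < 1 - 2 * σ * θ := by
      rw [lt_div_iff₀ (by positivity)] at hθ
      linarith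
    refine (NumberField.finite_setOfPred_logHeight₁_le (K := K)
      ((2 * σ * Y + C * Module.finrank ℚ K) / (1 - 2 * σ * θ))).subset ?_
    rintro j ⟨A, B, hD, rfl, hr, A₀, B₀, hD₀, hY, p, hp, h13, hpσ, hno⟩
    show Height.logHeight₁ (jInvariant A B) ≤ _
    rw [le_div_iff₀ hd]
    by_contra hc
    rw [not_le] at hc
    apply hno
    refine h K A B A₀ B₀ hD hD₀ hr ?_ p hp h13 hpσ
    have := mul_le_mul_of_nonneg_left hY (by positivity : 0 ≤ 2 * σ)
    nlinarith

end Pool.Agent.Results.MP_4a0cc8_nt.BoundedRatio
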