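import Mathlib
import Pool.Agent.T6.H79.RI.Fam
import Pool.Agent.T6.H79.RI.Pairs

/-!
# MP_4a0cc8_nt: one-parameter families are independent modulo ALL primes `p ≥ q` of all curves with small
multiplicative part, and pairs of one-parameter families with different poles are jointly full,
uniformly over all number fields of bounded degree

Let `j = F / G` be a rational function over the number field `K`, and let `L` run over all number fields
`L ⊇ K` of degree at most `n`.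

(A) Let `j` have at least two different poles.  There are `κ` and `q₀` (depending only on `j`) such that
for all `n`, `ε > 0`, `q ≥ q₀` there is a `C` with the following property.  For all `L`, all finite sets `S`
of primes of `L`, `θ ≥ 0` and `X ≥ 1`, all but `C X ^ (κ / q + κ θ + ε) (∏ N(v)) ^ ε`, `v ∈ S`, of the
`t ∈ L` of height at most `X` have the following property: for ALL elliptic curves `E` over `L` with
invariant `j(t)`, ALL primes `p ≥ q` and ALL elliptic curves `E₀` over `L` whose primes outside `S` of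
potentially multiplicative reduction have a product of norms at most `X ^ θ`, the image of `Gal(L̄/L)` in
`Aut(E[p]) × Aut(E₀[p])` contains `SL₂(𝔽_p) × 1`.  (For `θ = 0` and `S` the set of all primes of
potentially multiplicative reduction of one `E₀` this is the case of a fixed curve `E₀`.)

(B) Let `j' = F₁ / G₁` be a second rational function and suppose that `j` has at least two different poles
which are not poles of `j'`.  Then for all but `C X ^ (κ / q + ε)` of the `t ∈ L` of height at most `X` the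
image in `Aut(E[p]) × Aut(E₀[p])` contains `SL₂(𝔽_p) × 1` for all `E`, `E₀` over `L` with invariants
`j(t)`, `j'(t)` and all primes `p ≥ q`.

(C) If moreover `j'` has at least two different poles which are not poles of `j`, it contains
`SL₂(𝔽_p) × SL₂(𝔽_p)`.

Proof.  Relative local theorem (`Pool.Agent.T6.H79.RI.LocR`) and the resulting bound for the weight of the
poles of `j(E)` of order prime to `p` at which `j(E₀)` is integral (`Pool.Agent.T6.H79.RI.Wt`).  Let `π` be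
a pole of `j` and not of `j'`.  At a good prime `w` of `L(π)` with `w(t - π) > 0` the invariant `j(t)` has a
pole and `j'(t)` is integral, so up to primes of small weight and primes above `S` the ideal of `t - π` (of
`(t - π) / (t - ρ)`, if `ρ` is a second finite pole) is a `p`-th power, and such elements of bounded height
are counted in `Pool.Agent.Y673.Cnt` (helper673).
-/

set_option autoImplicit false

open NumberField WeierstrassCurve Polynomial IsDedekindDomain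

open scoped Classical

namespace Pool.Agent.Results.MP_4a0cc8_nt.FamiliesIndependence

section
variable {L : Type} [Field L]

/-- The curve `y² = x³ + Ax + B` over the field `L`. -/
def curve (A B : L) : WeierstrassCurve L := ⟨0, 0, 0, A, B⟩

/-- The group of its points over the algebraic closure of `L`. -/
abbrev Points (A B : L) : Type := ((curve A B).baseChange (AlgebraicClosure L)).toAffine.Point

/-- The action of an automorphism `σ` of the algebraic closure on the points. -/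
noncomputable def galois (A B : L) (σ : AlgebraicClosure L ≃ₐ[L] AlgebraicClosure L) :
    Points A B →+ Points A B :=
  WeierstrassCurve.Affine.Point.map (σ : AlgebraicClosure L →ₐ[L] AlgebraicClosure L)

/-- The points `P` and `Q` form a basis of the `p`-torsion. -/
def IsBasis (A B : L) (p : ℕ) (P Q : Points A B) : Prop :=
  p • P = 0 ∧ p • Q = 0 ∧
    (∀ R : Points A B, p • R = 0 → ∃ m n : ℤ, R = m • P + n • Q) ∧
    ∀ m n : ℤ, m • P + n • Q = 0 → (p : ℤ) ∣ m ∧ (p : ℤ) ∣ n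

/-- The image of the Galois group in `Aut(E[p]) × Aut(E₀[p])`, `E : y² = x³ + Ax + B`,
`E₀ : y² = x³ + A₀x + B₀`, contains `SL₂(𝔽_p) × 1`: there is a basis of `E[p]` in which every matrix of
determinant `1` modulo `p` is the matrix of some `σ` which acts trivially on `E₀[p]`. -/
def Independent (p : ℕ) (A B A₀ B₀ : L) : Prop :=
  ∃ P Q : Points A B, IsBasis A B p P Q ∧
    ∀ a b c d : ℤ, (p : ℤ) ∣ a * d - b * c - 1 →
      ∃ σ : AlgebraicClosure L ≃ₐ[L] AlgebraicClosure L,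
        (∀ R : Points A₀ B₀, p • R = 0 → galois A₀ B₀ σ R = R) ∧
        galois A B σ P = a • P + c • Q ∧ galois A B σ Q = b • P + d • Q

/-- The image of the Galois group in `Aut(E[p]) × Aut(E₀[p])` contains `SL₂(𝔽_p) × SL₂(𝔽_p)`: there are
bases of `E[p]` and of `E₀[p]` in which every pair of matrices of determinant `1` modulo `p` is the pair
of the matrices of some `σ`. -/
def JointlyFull (p : ℕ) (A B A₀ B₀ : L) : Prop :=
  ∃ (P Q : Points A B) (P₀ Q₀ : Points A₀ B₀), IsBasis A B p P Q ∧ IsBasis A₀ B₀ p P₀ Q₀ ∧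
    ∀ a b c d a' b' c' d' : ℤ, (p : ℤ) ∣ a * d - b * c - 1 → (p : ℤ) ∣ a' * d' - b' * c' - 1 →
      ∃ σ : AlgebraicClosure L ≃ₐ[L] AlgebraicClosure L,
        galois A B σ P = a • P + c • Q ∧ galois A B σ Q = b • P + d • Q ∧
        galois A₀ B₀ σ P₀ = a' • P₀ + c' • Q₀ ∧ galois A₀ B₀ σ Q₀ = b' • P₀ + d' • Q₀

/-- The invariant of `y² = x³ + Ax + B`. -/
noncomputable def jInvariant (A B : L) : L := 6912 * A ^ 3 / (4 * A ^ 3 + 27 * B ^ 2)

variable [NumberField L]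

/-- The product of the norms of the primes outside `S` at which the invariant of `y² = x³ + Ax + B` is
not integral (the primes outside `S` of potentially multiplicative reduction). -/
noncomputable def multProduct (S : Finset (HeightOneSpectrum (𝓞 L))) (A B : L) : ℝ :=
  ∏ᶠ v ∈ {v : HeightOneSpectrum (𝓞 L) | v ∉ S ∧ ¬ v.valuation L (jInvariant A B) ≤ 1},
    (Ideal.absNorm v.asIdeal : ℝ)

end

section
variable (K : Type) [Field K]

/-- The value of `F/G` at `t`. -/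
noncomputable def value (F G : K[X]) {L : Type} [Field L] [Algebra K L] (t : L) : L :=
  (F.map (algebraMap K L)).eval t / (G.map (algebraMap K L)).eval t

/-- The `t ∈ L` of height at most `X`, `G(t) ≠ 0`, such that for some elliptic curve `E` over `L` with
invariant `F(t)/G(t)`, some prime `p ≥ q` and some elliptic curve `E₀` over `L` with
`multProduct S E₀ ≤ X ^ θ` the image in `Aut(E[p]) × Aut(E₀[p])` does not contain `SL₂(𝔽_p) × 1`. -/
def ExceptionalA (F G : K[X]) (L : Type) [Field L] [NumberField L] [Algebra K L] (q : ℕ)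
    (S : Finset (HeightOneSpectrum (𝓞 L))) (θ X : ℝ) : Set L :=
  {t | Height.mulHeight₁ t ≤ X ∧ (G.map (algebraMap K L)).eval t ≠ 0 ∧
    ∃ a b : L, 4 * a ^ 3 + 27 * b ^ 2 ≠ 0 ∧ jInvariant a b = value K F G t ∧
    ∃ p : ℕ, p.Prime ∧ q ≤ p ∧ ∃ a₀ b₀ : L, 4 * a₀ ^ 3 + 27 * b₀ ^ 2 ≠ 0 ∧
      multProduct S a₀ b₀ ≤ X ^ θ ∧ ¬ Independent p a b a₀ b₀}

/-- The `t ∈ L` of height at most `X`, `G(t), G₁(t) ≠ 0`, such that for some elliptic curves `E`, `E₀`
over `L` with invariants `F(t)/G(t)`, `F₁(t)/G₁(t)` and some prime `p ≥ q` the image in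
`Aut(E[p]) × Aut(E₀[p])` does not contain `SL₂(𝔽_p) × 1`. -/
def ExceptionalB (F G F₁ G₁ : K[X]) (L : Type) [Field L] [NumberField L] [Algebra K L] (q : ℕ)
    (X : ℝ) : Set L :=
  {t | Height.mulHeight₁ t ≤ X ∧ (G.map (algebraMap K L)).eval t ≠ 0 ∧
    (G₁.map (algebraMap K L)).eval t ≠ 0 ∧
    ∃ a b a₀ b₀ : L, 4 * a ^ 3 + 27 * b ^ 2 ≠ 0 ∧ 4 * a₀ ^ 3 + 27 * b₀ ^ 2 ≠ 0 ∧
      jInvariant a b = value K F G t ∧ jInvariant a₀ b₀ = value K F₁ G₁ t ∧
      ∃ p : ℕ, p.Prime ∧ q ≤ p ∧ ¬ Independent p a b a₀ b₀}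

/-- The `t ∈ L` of height at most `X`, `G(t), G₁(t) ≠ 0`, such that for some elliptic curves `E`, `E₀`
over `L` with invariants `F(t)/G(t)`, `F₁(t)/G₁(t)` and some prime `p ≥ q` the image in
`Aut(E[p]) × Aut(E₀[p])` does not contain `SL₂(𝔽_p) × SL₂(𝔽_p)`. -/
def ExceptionalC (F G F₁ G₁ : K[X]) (L : Type) [Field L] [NumberField L] [Algebra K L] (q : ℕ)
    (X : ℝ) : Set L :=
  {t | Height.mulHeight₁ t ≤ X ∧ (G.map (algebraMap K L)).eval t ≠ 0 ∧
    (G₁.map (algebraMap K L)).eval t ≠ 0 ∧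
    ∃ a b a₀ b₀ : L, 4 * a ^ 3 + 27 * b ^ 2 ≠ 0 ∧ 4 * a₀ ^ 3 + 27 * b₀ ^ 2 ≠ 0 ∧
      jInvariant a b = value K F G t ∧ jInvariant a₀ b₀ = value K F₁ G₁ t ∧
      ∃ p : ℕ, p.Prime ∧ q ≤ p ∧ ¬ JointlyFull p a b a₀ b₀}

/-- `F/G` has at least two different poles on the projective line over the algebraic closure. -/
def TwoPoles (F G : K[X]) : Prop :=
  (∃ x y : AlgebraicClosure K, x ≠ y ∧ aeval x G = 0 ∧ aeval y G = 0) ∨
    (0 < G.natDegree ∧ G.natDegree < F.natDegree)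

/-- `F/G` has at least two different poles on the projective line over the algebraic closure which are
not poles of `F₁/G₁`. -/
def TwoPolesOutside (F G F₁ G₁ : K[X]) : Prop :=
  (∃ x y : AlgebraicClosure K, x ≠ y ∧ (aeval x G = 0 ∧ aeval x G₁ ≠ 0) ∧
    (aeval y G = 0 ∧ aeval y G₁ ≠ 0)) ∨
  ((∃ x : AlgebraicClosure K, aeval x G = 0 ∧ aeval x G₁ ≠ 0) ∧ G.natDegree < F.natDegree ∧
    F₁.natDegree ≤ G₁.natDegree)

end

open Pool.Agent.T6.H79.RI Pool.Agent.H951R3.V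

section Aux

variable {L : Type} [Field L] [NumberField L]

/-- the relative image -/
theorem indep_of {p : ℕ} (hp : p.Prime) {a b a₀ b₀ : L} (hD : 4 * a ^ 3 + 27 * b ^ 2 ≠ 0)
    (h : HasR a b a₀ b₀ p) : Independent p a b a₀ b₀ := by
  obtain ⟨P, Q, g1, g2, g3, g4, g5⟩ := h
  obtain ⟨h6, h7⟩ := Pool.Agent.Y673.SL.basis hD hp g1 g2 g3 g4
  exact ⟨P, Q, ⟨g1, g2, h6, h7⟩, g5⟩

/-- the joint image -/
theorem joint_of {p : ℕ} (hp : p.Prime) {a b a₀ b₀ : L} (hD : 4 * a ^ 3 + 27 * b ^ 2 ≠ 0)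
    (hD₀ : 4 * a₀ ^ 3 + 27 * b₀ ^ 2 ≠ 0) (h : HasR a b a₀ b₀ p) (h₀ : HasR a₀ b₀ a b p) :
    JointlyFull p a b a₀ b₀ := by
  obtain ⟨P, Q, P₀, Q₀, g1, g2, g3, g4, g1', g2', g3', g4', g5⟩ := joint h h₀
  obtain ⟨h6, h7⟩ := Pool.Agent.Y673.SL.basis hD hp g1 g2 g3 g4
  obtain ⟨h6', h7'⟩ := Pool.Agent.Y673.SL.basis hD₀ hp g1' g2' g3' g4'
  exact ⟨P, Q, P₀, Q₀, ⟨g1, g2, h6, h7⟩, ⟨g1', g2', h6', h7'⟩, g5⟩

theorem mult_weight {S : Finset (HeightOneSpectrum (𝓞 L))} {a b : L} {Y : ℝ} (hY : 1 ≤ Y)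
    (h : multProduct S a b ≤ Y) :
    ∃ R : Finset (HeightOneSpectrum (𝓞 L)), (∀ v, v ∉ S → v ∉ R →
      (Pool.Agent.Y673.Loc.adv L v).G 0 (Pool.Agent.Y673.Loc.jv a b)) ∧
      ∑ v ∈ R, ell v ≤ Real.log Y := by
  have hfin : {v : HeightOneSpectrum (𝓞 L) | v ∉ S ∧
      ¬ v.valuation L (jInvariant a b) ≤ 1}.Finite :=
    (poles_finite (jInvariant a b)).subset fun v hv => hv.2
  refine ⟨hfin.toFinset, ?_, ?_⟩
  · intro v hvS hv
    rw [Set.Finite.mem_toFinset] at hv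
    rw [G_iff]
    by_contra hc
    exact hv ⟨hvS, hc⟩
  · unfold multProduct at h
    rw [finprod_mem_eq_finite_toFinset_prod _ hfin] at h
    have hpos : ∀ v : HeightOneSpectrum (𝓞 L), (0 : ℝ) < (Ideal.absNorm v.asIdeal : ℝ) :=
      fun v => by
        have := Pool.Agent.R420.oneN v
        linarith
    have h1 := Real.log_le_log (Finset.prod_pos fun v _ => hpos v) h
    rw [Real.log_prod fun v _ => (hpos v).ne'] at h1
    exact h1

end Aux

/-- the count of the library for a pair of rational functions -/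
theorem core (K : Type) [Field K] [NumberField K] (F G F₁ G₁ : K[X]) (hFG : IsCoprime F G)
    (hG : G ≠ 0) (hG₁ : G₁ ≠ 0) (hpoles : TwoPolesOutside K F G F₁ G₁) :
    ∃ (κ : ℝ) (q₀ : ℕ), ∀ (n : ℕ) (ε : ℝ), 0 < ε →
    ∀ q : ℕ, q₀ ≤ q → ∃ C : ℝ, 0 < C ∧
    ∀ (L : Type) [Field L] [NumberField L] [Algebra K L], Module.finrank ℚ L ≤ n →
      ∀ (S : Finset (HeightOneSpectrum (𝓞 L))) (Y : ℝ), 0 ≤ Y →
      ∀ X : ℝ, 1 ≤ X → ∀ E : Finset L, (∀ t ∈ E, Height.mulHeight₁ t ≤ X ∧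
        (G.map (algebraMap K L)).eval t ≠ 0 ∧
        EJR L q S Y (value K F₁ G₁ t) (value K F G t)) →
      (E.card : ℝ) ≤ C * X ^ (κ / q + ε) * Real.exp (κ * Y + ε * ∑ v ∈ S, ell v) := by
  rcases hpoles with ⟨x, y, hxy, ⟨hx, hx₁⟩, hy, hy₁⟩ | ⟨⟨x, hx, hx₁⟩, h1, h2⟩
  · exact rational_twoR K F G F₁ G₁ hFG hG x y hxy hx hy hx₁ hy₁
  · exact rational_infR K F G F₁ G₁ hFG hG h1 hG₁ h2 x hx hx₁

/-- (B) -/
theorem part_two (K : Type) [Field K] [NumberField K] (F G F₁ G₁ : K[X]) (hFG : IsCoprime F G)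
    (hG : G ≠ 0) (hG₁ : G₁ ≠ 0) (hpoles : TwoPolesOutside K F G F₁ G₁) :
    ∃ (κ : ℝ) (q₀ : ℕ), ∀ (n : ℕ) (ε : ℝ), 0 < ε → ∀ q : ℕ, q₀ ≤ q → ∃ C : ℝ,
      ∀ (L : Type) [Field L] [NumberField L] [Algebra K L], Module.finrank ℚ L ≤ n →
      ∀ X : ℝ, 1 ≤ X → (ExceptionalB K F G F₁ G₁ L q X).Finite ∧
        ((ExceptionalB K F G F₁ G₁ L q X).ncard : ℝ) ≤ C * X ^ (κ / q + ε) := by
  obtain ⟨κ, q₀, h⟩ := core K F G F₁ G₁ hFG hG hG₁ hpoles
  refine ⟨κ, q₀, fun n ε hε q hq => ?_⟩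
  obtain ⟨C, -, h⟩ := h n ε hε q hq
  refine ⟨C, fun L _ _ _ hL X hX => ?_⟩
  refine Pool.Agent.Y673.Cnt.ncard_le_of _ _ fun E hE => ?_
  have h1 := h L hL ∅ 0 le_rfl X hX E fun t ht => by
    obtain ⟨h3, h4, -, a, b, a₀, b₀, hD, hD₀, hj, hj₀, p, hp, hqp, hno⟩ :=
      hE (Finset.mem_coe.2 ht)
    refine ⟨h3, h4, a, b, hD, hj, p, hp, hqp, a₀, b₀, hD₀, ⟨∅, fun v _ _ hv => ?_, by simp⟩,
      fun hh => hno (indep_of hp hD hh)⟩
    rw [← hj₀] at hv
    exact hv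
  simpa using h1

/-- (C) -/
theorem part_three (K : Type) [Field K] [NumberField K] (F G F₁ G₁ : K[X]) (hFG : IsCoprime F G)
    (hG : G ≠ 0) (hFG₁ : IsCoprime F₁ G₁) (hG₁ : G₁ ≠ 0) (hpoles : TwoPolesOutside K F G F₁ G₁)
    (hpoles₁ : TwoPolesOutside K F₁ G₁ F G) :
    ∃ (κ : ℝ) (q₀ : ℕ), ∀ (n : ℕ) (ε : ℝ), 0 < ε → ∀ q : ℕ, q₀ ≤ q → ∃ C : ℝ,
      ∀ (L : Type) [Field L] [NumberField L] [Algebra K L], Module.finrank ℚ L ≤ n →
      ∀ X : ℝ, 1 ≤ X → (ExceptionalC K F G F₁ G₁ L q X).Finite ∧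
        ((ExceptionalC K F G F₁ G₁ L q X).ncard : ℝ) ≤ C * X ^ (κ / q + ε) := by
  obtain ⟨κ, q₀, h⟩ := part_two K F G F₁ G₁ hFG hG hG₁ hpoles
  obtain ⟨κ₁, q₁, h₁⟩ := part_two K F₁ G₁ F G hFG₁ hG₁ hG hpoles₁
  refine ⟨max κ κ₁, max q₀ q₁ + 1, fun n ε hε q hq => ?_⟩
  obtain ⟨C, h⟩ := h n ε hε q (by omega)
  obtain ⟨C₁, h₁⟩ := h₁ n ε hε q (by omega)
  refine ⟨|C| + |C₁|, fun L _ _ _ hL X hX => ?_⟩
  obtain ⟨f1, f2⟩ := h L hL X hX
  obtain ⟨g1, g2⟩ := h₁ L hL X hX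
  have hsub : ExceptionalC K F G F₁ G₁ L q X ⊆
      ExceptionalB K F G F₁ G₁ L q X ∪ ExceptionalB K F₁ G₁ F G L q X := by
    rintro t ⟨h3, h4, h5, a, b, a₀, b₀, hD, hD₀, hj, hj₀, p, hp, hqp, hno⟩
    by_cases h6 : Independent p a b a₀ b₀
    · right
      refine ⟨h3, h5, h4, a₀, b₀, a, b, hD₀, hD, hj₀, hj, p, hp, hqp, fun h7 => hno ?_⟩
      obtain ⟨P, Q, hb, hall⟩ := h6
      obtain ⟨P₀, Q₀, hb₀, hall₀⟩ := h7
      refine ⟨P, Q, P₀, Q₀, hb, hb₀, ?_⟩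
      intro x y z w x' y' z' w' hd hd'
      obtain ⟨σ, s0, s1, s2⟩ := hall x y z w hd
      obtain ⟨τ, t0, t1, t2⟩ := hall₀ x' y' z' w' hd'
      have hmul : ∀ (A B : L) (P : Points A B), galois A B (σ * τ) P =
          galois A B σ (galois A B τ P) := fun A B P => act_mul A B σ τ P
      refine ⟨σ * τ, ?_, ?_, ?_, ?_⟩
      · rw [hmul, t0 P hb.1, s1]
      · rw [hmul, t0 Q hb.2.1, s2]
      · rw [hmul, t1, map_add, map_zsmul, map_zsmul, s0 P₀ hb₀.1, s0 Q₀ hb₀.2.1]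
      · rw [hmul, t2, map_add, map_zsmul, map_zsmul, s0 P₀ hb₀.1, s0 Q₀ hb₀.2.1]
    · left
      exact ⟨h3, h4, h5, a, b, a₀, b₀, hD, hD₀, hj, hj₀, p, hp, hqp, h6⟩
  refine ⟨(f1.union g1).subset hsub, ?_⟩
  have hq0 : (0 : ℝ) < q := by exact_mod_cast (by omega : 0 < q)
  have c1 : ((ExceptionalC K F G F₁ G₁ L q X).ncard : ℝ) ≤
      (ExceptionalB K F G F₁ G₁ L q X).ncard + (ExceptionalB K F₁ G₁ F G L q X).ncard := by
    exact_mod_cast (Set.ncard_le_ncard hsub (f1.union g1)).trans (Set.ncard_union_le _ _)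
  have e1 : X ^ (κ / q + ε) ≤ X ^ (max κ κ₁ / q + ε) :=
    Real.rpow_le_rpow_of_exponent_le hX (by gcongr; exact le_max_left _ _)
  have e2 : X ^ (κ₁ / q + ε) ≤ X ^ (max κ κ₁ / q + ε) :=
    Real.rpow_le_rpow_of_exponent_le hX (by gcongr; exact le_max_right _ _)
  have hX0 : (0 : ℝ) < X := by linarith
  have e3 : C * X ^ (κ / q + ε) ≤ |C| * X ^ (max κ κ₁ / q + ε) :=
    mul_le_mul (le_abs_self C) e1 (by positivity) (abs_nonneg C)
  have e4 : C₁ * X ^ (κ₁ / q + ε) ≤ |C₁| * X ^ (max κ κ₁ / q + ε) :=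
    mul_le_mul (le_abs_self C₁) e2 (by positivity) (abs_nonneg C₁)
  rw [add_mul]
  linarith

/-- (A) -/
theorem part_one (K : Type) [Field K] [NumberField K] (F G : K[X]) (hFG : IsCoprime F G)
    (hG : G ≠ 0) (hpoles : TwoPoles K F G) :
    ∃ (κ : ℝ) (q₀ : ℕ), ∀ (n : ℕ) (ε : ℝ), 0 < ε → ∀ q : ℕ, q₀ ≤ q → ∃ C : ℝ,
      ∀ (L : Type) [Field L] [NumberField L] [Algebra K L], Module.finrank ℚ L ≤ n →
      ∀ (S : Finset (HeightOneSpectrum (𝓞 L))) (θ X : ℝ), 0 ≤ θ → 1 ≤ X →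
        (ExceptionalA K F G L q S θ X).Finite ∧
        ((ExceptionalA K F G L q S θ X).ncard : ℝ) ≤ C * X ^ (κ / q + κ * θ + ε) *
          (∏ v ∈ S, (Ideal.absNorm v.asIdeal : ℝ)) ^ ε := by
  have hp : TwoPolesOutside K F G 0 1 := by
    rcases hpoles with ⟨x, y, hxy, hx, hy⟩ | ⟨h1, h2⟩
    · exact Or.inl ⟨x, y, hxy, ⟨hx, by simp⟩, hy, by simp⟩
    · obtain ⟨x, hx⟩ := IsAlgClosed.exists_aeval_eq_zero (AlgebraicClosure K) G
        (fun h => by rw [← natDegree_eq_zero_iff_degree_le_zero.2 h.le] at h1; exact lt_irrefl _ h1)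
      exact Or.inr ⟨⟨x, hx, by simp⟩, h2, by simp⟩
  obtain ⟨κ, q₀, h⟩ := core K F G 0 1 hFG hG one_ne_zero hp
  refine ⟨κ, q₀, fun n ε hε q hq => ?_⟩
  obtain ⟨C, -, h⟩ := h n ε hε q hq
  refine ⟨C, fun L _ _ _ hL S θ X hθ hX => ?_⟩
  have hX0 : (0 : ℝ) < X := by linarith
  have hlX : 0 ≤ Real.log X := Real.log_nonneg hX
  have hpos : ∀ v : HeightOneSpectrum (𝓞 L), (0 : ℝ) < (Ideal.absNorm v.asIdeal : ℝ) :=
    fun v => by
      have := Pool.Agent.R420.oneN v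
      linarith
  refine Pool.Agent.Y673.Cnt.ncard_le_of _ _ fun E hE => ?_
  have h1 := h L hL S (θ * Real.log X) (by positivity) X hX E fun t ht => by
    obtain ⟨h3, h4, a, b, hD, hj, p, hp, hqp, a₀, b₀, hD₀, hm, hno⟩ := hE (Finset.mem_coe.2 ht)
    obtain ⟨R, hR, hR'⟩ := mult_weight (Real.one_le_rpow hX hθ) hm
    rw [Real.log_rpow hX0] at hR'
    exact ⟨h3, h4, a, b, hD, hj, p, hp, hqp, a₀, b₀, hD₀, ⟨R, fun v h5 h6 _ => hR v h5 h6, hR'⟩,
      fun hh => hno (indep_of hp hD hh)⟩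
  refine h1.trans (le_of_eq ?_)
  have e1 : Real.exp (κ * (θ * Real.log X) + ε * ∑ v ∈ S, ell v) =
      X ^ (κ * θ) * (∏ v ∈ S, (Ideal.absNorm v.asIdeal : ℝ)) ^ ε := by
    rw [Real.exp_add, Real.rpow_def_of_pos hX0,
      Real.rpow_def_of_pos (Finset.prod_pos fun v _ => hpos v),
      Real.log_prod fun v _ => (hpos v).ne']
    congr 2
    · ring
    · rw [mul_comm]; rfl
  rw [e1, ← mul_assoc, mul_assoc C, ← Real.rpow_add hX0]
  congr 3
  ring

/-- **Independence in one-parameter families.**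
(A) `F/G` with at least two poles: for suitable `κ`, `q₀` and all `n`, `ε > 0`, `q ≥ q₀` there is a `C`
such that for all number fields `L ⊇ K` of degree at most `n`, finite sets `S` of primes of `L`, `θ ≥ 0`
and `X ≥ 1` at most `C X ^ (κ / q + κ θ + ε) ∏ N(v) ^ ε`, `v ∈ S`, parameters `t ∈ L` of height at most `X`
are exceptional of type A.
(B) If at least two poles of `F/G` are not poles of `F₁/G₁`, at most `C X ^ (κ / q + ε)` parameters of
height at most `X` are exceptional of type B.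
(C) If moreover at least two poles of `F₁/G₁` are not poles of `F/G`, the same holds for type C. -/
theorem result (K : Type) [Field K] [NumberField K] (F G : K[X]) (hFG : IsCoprime F G)
    (hG : G ≠ 0) :
    (TwoPoles K F G → ∃ (κ : ℝ) (q₀ : ℕ), ∀ (n : ℕ) (ε : ℝ), 0 < ε → ∀ q : ℕ, q₀ ≤ q → ∃ C : ℝ,
      ∀ (L : Type) [Field L] [NumberField L] [Algebra K L], Module.finrank ℚ L ≤ n →
      ∀ (S : Finset (HeightOneSpectrum (𝓞 L))) (θ X : ℝ), 0 ≤ θ → 1 ≤ X →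
        (ExceptionalA K F G L q S θ X).Finite ∧
        ((ExceptionalA K F G L q S θ X).ncard : ℝ) ≤ C * X ^ (κ / q + κ * θ + ε) *
          (∏ v ∈ S, (Ideal.absNorm v.asIdeal : ℝ)) ^ ε) ∧
    (∀ F₁ G₁ : K[X], G₁ ≠ 0 → TwoPolesOutside K F G F₁ G₁ →
      ∃ (κ : ℝ) (q₀ : ℕ), ∀ (n : ℕ) (ε : ℝ), 0 < ε → ∀ q : ℕ, q₀ ≤ q → ∃ C : ℝ,
      ∀ (L : Type) [Field L] [NumberField L] [Algebra K L], Module.finrank ℚ L ≤ n →
      ∀ X : ℝ, 1 ≤ X → (ExceptionalB K F G F₁ G₁ L q X).Finite ∧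
        ((ExceptionalB K F G F₁ G₁ L q X).ncard : ℝ) ≤ C * X ^ (κ / q + ε)) ∧
    (∀ F₁ G₁ : K[X], IsCoprime F₁ G₁ → G₁ ≠ 0 → TwoPolesOutside K F G F₁ G₁ →
      TwoPolesOutside K F₁ G₁ F G →
      ∃ (κ : ℝ) (q₀ : ℕ), ∀ (n : ℕ) (ε : ℝ), 0 < ε → ∀ q : ℕ, q₀ ≤ q → ∃ C : ℝ,
      ∀ (L : Type) [Field L] [NumberField L] [Algebra K L], Module.finrank ℚ L ≤ n →
      ∀ X : ℝ, 1 ≤ X → (ExceptionalC K F G F₁ G₁ L q X).Finite ∧
        ((ExceptionalC K F G F₁ G₁ L q X).ncard : ℝ) ≤ C * X ^ (κ / q + ε)) :=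
  ⟨fun h => part_one K F G hFG hG h, fun F₁ G₁ h₁ h => part_two K F G F₁ G₁ hFG hG h₁ h,
    fun F₁ G₁ h₁ h₂ h h' => part_three K F G F₁ G₁ hFG hG h₁ h₂ h h'⟩

end Pool.Agent.Results.MP_4a0cc8_nt.FamiliesIndependence
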