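import Mathlib
import Pool.Agent.T6.H79.RI.Res

/-!
# MP_4a0cc8_nt: almost all curves of a box are independent modulo ALL primes `p ≥ q` of ALL curves `E₀`
with a small product of primes of potentially multiplicative reduction

Let `K` be a number field of degree `n`, `q ≥ 13`, `6 / q ≤ κ ≤ 3` and `ε > 0`.  Among the pairs `(A, B)`
of integers of `K`, `A ≠ 0`, `4A³ + 27B² ≠ 0`, with all conjugates of `A` at most `T²` and of `B` at most
`T³` (there are about `T ^ (5 n)` of them), all but `O(T ^ ((2 + 6 / q + κ) n + ε))` have the following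
property.  Let `E : y² = x³ + Ax + B`.  For EVERY prime `p ≥ q` and EVERY elliptic curve `E₀` over `K`
whose primes of potentially multiplicative reduction have a product of norms at most `T ^ (κ n)` (there
is no other restriction on `E₀`; for instance all curves with integral invariant, and all their twists,
are allowed), the image of `Gal(K̄/K)` in `Aut(E[p]) × Aut(E₀[p])` contains `SL₂(𝔽_p) × 1`: the
automorphisms which act trivially on `E₀[p]` induce all automorphisms of determinant one of `E[p]`.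

In particular `E[m]` and `E₀[m]` are not isomorphic if `m` has a prime factor `p ≥ q`.

Proof.  The new point is a relative form of the local theory: let `v ∤ 6` be a place with `8 v(p) < p² - 1`
at which `E₀` has potentially good reduction and `v(j(E)) < 0`, `p ∤ v(j(E))`.  Then some element of the
inertia group at `v` acts trivially on `E₀[p]` and with order `p` on `E[p]` (also if `v ∣ p`).  Indeed
otherwise all elements of order `p` of the inertia group act nontrivially on `E₀[p]`, so `p ∥ #I`, and one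
compares their displacement of points of `E₀[p]` in the kernel of the reduction with that of points over
the node of `E`.  Then the normal subgroup of the automorphisms trivial on `E₀[p]` contains an element
acting with order `p` on `E[p]`, so its image contains `SL₂(𝔽_p)` or `Gal(K̄/K)` fixes a line in `E[p]`;
in the second case the primes with `v(j) < 0`, `p ∤ v(j)` contribute at most `(h(j) + O(n)) / q` to the
height (`Pool.Agent.R420.red_bound2`, helper420).  So the primes dividing `4A³ + 27B²` have small weight.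
-/

set_option autoImplicit false

open NumberField WeierstrassCurve IsDedekindDomain

namespace Pool.Agent.Results.MP_4a0cc8_nt.IndependentInBoxes

section
variable {K : Type} [Field K]

/-- The curve `y² = x³ + Ax + B` over the field `K`. -/
def curve (A B : K) : WeierstrassCurve K := ⟨0, 0, 0, A, B⟩

open scoped Classical in
/-- The group of its points over the algebraic closure of `K`. -/
abbrev Points (A B : K) : Type := ((curve A B).baseChange (AlgebraicClosure K)).toAffine.Point

open scoped Classical in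
/-- The action of an automorphism `σ` of the algebraic closure on the points. -/
noncomputable def galois (A B : K) (σ : AlgebraicClosure K ≃ₐ[K] AlgebraicClosure K) :
    Points A B →+ Points A B :=
  WeierstrassCurve.Affine.Point.map (σ : AlgebraicClosure K →ₐ[K] AlgebraicClosure K)

open scoped Classical in
/-- The points `P` and `Q` form a basis of the `p`-torsion. -/
def IsBasis (A B : K) (p : ℕ) (P Q : Points A B) : Prop :=
  p • P = 0 ∧ p • Q = 0 ∧
    (∀ R : Points A B, p • R = 0 → ∃ m n : ℤ, R = m • P + n • Q) ∧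
    ∀ m n : ℤ, m • P + n • Q = 0 → (p : ℤ) ∣ m ∧ (p : ℤ) ∣ n

open scoped Classical in
/-- The image of the Galois group in `Aut(E[p]) × Aut(E₀[p])`, `E : y² = x³ + Ax + B`,
`E₀ : y² = x³ + A₀x + B₀`, contains `SL₂(𝔽_p) × 1`: there is a basis of `E[p]` in which every matrix of
determinant `1` modulo `p` is the matrix of some `σ` which acts trivially on `E₀[p]`. -/
def Independent (p : ℕ) (A B A₀ B₀ : K) : Prop :=
  ∃ P Q : Points A B, IsBasis A B p P Q ∧
    ∀ a b c d : ℤ, (p : ℤ) ∣ a * d - b * c - 1 →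
      ∃ σ : AlgebraicClosure K ≃ₐ[K] AlgebraicClosure K,
        (∀ R : Points A₀ B₀, p • R = 0 → galois A₀ B₀ σ R = R) ∧
        galois A B σ P = a • P + c • Q ∧ galois A B σ Q = b • P + d • Q

open scoped Classical in
/-- The `m`-torsion of `y² = x³ + Ax + B` and that of `y² = x³ + A₀x + B₀` are isomorphic as Galois
modules: some map between the groups of points restricts to a bijective additive map of the
`m`-torsion which commutes with the Galois group. -/
def Congruent (m : ℕ) (A B A₀ B₀ : K) : Prop :=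
  ∃ f : Points A B → Points A₀ B₀, (∀ P Q, m • P = 0 → m • Q = 0 → f (P + Q) = f P + f Q) ∧
    Set.BijOn f {P | m • P = 0} {Q | m • Q = 0} ∧
    ∀ (σ : AlgebraicClosure K ≃ₐ[K] AlgebraicClosure K) (P : Points A B), m • P = 0 →
      f (galois A B σ P) = galois A₀ B₀ σ (f P)

/-- The invariant of `y² = x³ + Ax + B`. -/
noncomputable def jInvariant (A B : K) : K := 6912 * A ^ 3 / (4 * A ^ 3 + 27 * B ^ 2)

end

/-- The product of the norms of the primes at which the invariant of `y² = x³ + Ax + B` is not integral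
(the primes of potentially multiplicative reduction). -/
noncomputable def multProduct {K : Type} [Field K] [NumberField K] (A B : K) : ℝ :=
  ∏ᶠ v ∈ {v : HeightOneSpectrum (𝓞 K) | ¬ v.valuation K (jInvariant A B) ≤ 1},
    (Ideal.absNorm v.asIdeal : ℝ)

/-- The pairs `(A, B)` of integers of `K`, `A ≠ 0`, `4A³ + 27B² ≠ 0`, all conjugates of `A` at most `T²`
and all conjugates of `B` at most `T³`. -/
def Box (K : Type) [Field K] [NumberField K] (T : ℝ) : Set (𝓞 K × 𝓞 K) :=
  {x | (∀ σ : K →+* ℂ, ‖σ (x.1 : K)‖ ≤ T ^ 2 ∧ ‖σ (x.2 : K)‖ ≤ T ^ 3) ∧ x.1 ≠ 0 ∧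
    4 * x.1 ^ 3 + 27 * x.2 ^ 2 ≠ 0}

/-- The pairs of the box for which there are a prime `p ≥ q` and an elliptic curve `E₀` over `K` with
`multProduct E₀ ≤ T ^ (κ [K : ℚ])` such that the image of the Galois group in `Aut(E[p]) × Aut(E₀[p])`
does not contain `SL₂(𝔽_p) × 1`. -/
def Exceptional (K : Type) [Field K] [NumberField K] (q : ℕ) (κ T : ℝ) : Set (𝓞 K × 𝓞 K) :=
  {x | x ∈ Box K T ∧ ∃ p : ℕ, p.Prime ∧ q ≤ p ∧ ∃ A₀ B₀ : K, 4 * A₀ ^ 3 + 27 * B₀ ^ 2 ≠ 0 ∧
    multProduct A₀ B₀ ≤ T ^ (κ * (Module.finrank ℚ K : ℝ)) ∧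
    ¬ Independent p (x.1 : K) (x.2 : K) A₀ B₀}

open scoped Classical in
/-- **Almost all curves of the box are independent of all `E₀` with a small product of primes of
potentially multiplicative reduction, modulo all primes `p ≥ q`.** (1) For every number field `K`,
`q ≥ 13`, `6 / q ≤ κ ≤ 3` and `ε > 0` there is a `C` such that for all `T ≥ 1` at most
`C T ^ ((2 + 6 / q + κ) [K : ℚ] + ε)` pairs of the box are exceptional.  (2) If `(A, B)` is a pair of the
box which is not exceptional, `E : y² = x³ + Ax + B`, then `E[m]` and `E₀[m]` are not isomorphic for all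
`m` with a prime factor `p ≥ q` and all elliptic curves `E₀` over `K` with
`multProduct E₀ ≤ T ^ (κ [K : ℚ])`. -/
theorem result (K : Type) [Field K] [NumberField K] (q : ℕ) (hq : 13 ≤ q) (κ : ℝ)
    (hκ : 6 / (q : ℝ) ≤ κ) (hκ3 : κ ≤ 3) :
    (∀ ε : ℝ, 0 < ε → ∃ C : ℝ, ∀ T : ℝ, 1 ≤ T → (Exceptional K q κ T).Finite ∧
      ((Exceptional K q κ T).ncard : ℝ) ≤
        C * T ^ ((2 + 6 / (q : ℝ) + κ) * (Module.finrank ℚ K : ℝ) + ε)) ∧
    ∀ T : ℝ, ∀ x ∈ Box K T, x ∉ Exceptional K q κ T → ∀ A₀ B₀ : K,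
      4 * A₀ ^ 3 + 27 * B₀ ^ 2 ≠ 0 → multProduct A₀ B₀ ≤ T ^ (κ * (Module.finrank ℚ K : ℝ)) →
      ∀ m p : ℕ, p.Prime → q ≤ p → p ∣ m → ¬ Congruent m (x.1 : K) (x.2 : K) A₀ B₀ := by
  refine ⟨fun ε hε => ?_, ?_⟩
  · obtain ⟨C, h⟩ := Pool.Agent.T6.H79.RI.main K q hq κ hκ (by linarith) ε hε
    refine ⟨C, fun T hT => ?_⟩
    have hsub : Exceptional K q κ T ⊆
        Pool.Agent.T6.H79.RI.excR K q (κ * Module.finrank ℚ K * Real.log T) T := by
      rintro x ⟨⟨h1, h2, h3⟩, p, hp, hqp, A₀, B₀, hD₀, hm, hno⟩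
      refine ⟨h1, h2, h3, p, hp, hqp, A₀, B₀, hD₀, ?_, ?_⟩
      · have hκ0 : 0 ≤ κ := le_trans (by positivity) hκ
        have hY : (1 : ℝ) ≤ T ^ (κ * (Module.finrank ℚ K : ℝ)) :=
          Real.one_le_rpow hT (by positivity)
        obtain ⟨R, hR, hR'⟩ := Pool.Agent.T6.H79.RI.poles_weight _ hY hm
        refine ⟨R, hR, ?_⟩
        rwa [Real.log_rpow (by linarith)] at hR'
      · rintro ⟨P, Q, g1, g2, g3, g4, g5⟩
        have hD : 4 * (x.1 : K) ^ 3 + 27 * (x.2 : K) ^ 2 ≠ 0 := by
          intro h0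
          apply h3
          have h4 : ((4 * x.1 ^ 3 + 27 * x.2 ^ 2 : 𝓞 K) : K) = 0 := by push_cast; exact h0
          exact_mod_cast h4
        obtain ⟨h6, h7⟩ := Pool.Agent.Y673.SL.basis hD hp g1 g2 g3 g4
        exact hno ⟨P, Q, ⟨g1, g2, h6, h7⟩, g5⟩
    obtain ⟨h1, h2⟩ := h T hT
    exact ⟨h1.subset hsub, le_trans (by exact_mod_cast Set.ncard_le_ncard hsub h1) h2⟩
  · rintro T x hx hxE A₀ B₀ hD₀ hm m p hp hqp hpm ⟨f, f1, f2, f3⟩
    apply hxE
    refine ⟨hx, p, hp, hqp, A₀, B₀, hD₀, hm, ?_⟩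
    rintro ⟨P, Q, ⟨hP, hQ, -, hind⟩, hall⟩
    obtain ⟨σ, hσ, -, hσQ⟩ := hall 1 1 0 1 (by norm_num)
    have h1 := Pool.Agent.T6.H79.RI.cong_triv hpm f1 f2 (ρ := galois (x.1 : K) (x.2 : K) σ)
      (ρ' := galois A₀ B₀ σ) (f3 σ) hσ hQ
    rw [hσQ, one_smul, one_smul, add_eq_right] at h1
    have h2 := (hind 1 0 (by rw [h1]; simp)).1
    have h3 : (p : ℤ) ≤ 1 := Int.le_of_dvd one_pos h2
    have := hp.two_le
    omega

end Pool.Agent.Results.MP_4a0cc8_nt.IndependentInBoxes
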